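import Pool.Agent.R717.Lindim2
import Mathlib

/-!
# Linear dimension of primitive actions of symmetric groups: disproof of the bound

The action of `S_n` (`n ≥ 6` even) on the partitions of `{1, …, n}` into two blocks of size `n / 2`
has linear dimension at most `(n² - 5 n + 2) / 2` over the prime field of characteristic `p`
whenever `p` is an odd prime divisor of `n - 2`.
-/

namespace Pool.Agent.Results.MP_bfdf54_al.TwoBlockPartitions

open Equiv Module Pool.Agent.R717.Lindim

/-- The action of `G` on `Ω` has a representation over `F` of dimension `d`: a finite-dimensional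
`F`-vector space `V` of dimension `d`, a homomorphism `ρ : G → GL(V)` and an injective map
`φ : Ω → V` with `φ (g • ω) = ρ g (φ ω)`. -/
def IsRepDim (F : Type) [Field F] (G Ω : Type) [Group G] [MulAction G Ω] (d : ℕ) : Prop :=
  ∃ (V : Type) (_ : AddCommGroup V) (_ : Module F V) (_ : Module.Finite F V)
    (ρ : Representation F G V) (φ : Ω → V),
    Function.Injective φ ∧ (∀ g ω, φ (g • ω) = ρ g (φ ω)) ∧ Module.finrank F V = d

/-- The `F`-linear dimension of an action: the least dimension of a representation of it. -/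
noncomputable def lindim (F : Type) [Field F] (G Ω : Type) [Group G] [MulAction G Ω] : ℕ :=
  sInf {d | IsRepDim F G Ω d}

/-- The action of `S_n` on `Ω` is equivalent to the action on the `k`-element subsets. -/
def IsSubsetAction (n : ℕ) (Ω : Type) [MulAction (Perm (Fin n)) Ω] (k : ℕ) : Prop :=
  ∃ e : Ω ≃ {s : Finset (Fin n) // s.card = k},
    ∀ (g : Perm (Fin n)) (ω : Ω), (e (g • ω)).1 = (e ω).1.map g.toEmbedding

lemma main (n p : ℕ) [Fact p.Prime] (hn : 6 ≤ n) (he : Even n) (hp : p ≠ 2) (hd : p ∣ n - 2) :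
    FaithfulSMul (Perm (Fin n)) (TwoBlocks n) ∧
      MulAction.IsPreprimitive (Perm (Fin n)) (TwoBlocks n) ∧
      (∀ k, ¬ IsSubsetAction n (TwoBlocks n) k) ∧
      2 * lindim (ZMod p) (Perm (Fin n)) (TwoBlocks n) + 5 * n ≤ n ^ 2 + 2 := by
  refine ⟨faithful hn he, preprimitive hn he, fun k => not_subsets hn he k, ?_⟩
  have h2 : (2 : ZMod p) ≠ 0 := by
    intro h
    have h3 : ((2 : ℕ) : ZMod p) = 0 := by exact_mod_cast h
    rw [ZMod.natCast_eq_zero_iff] at h3
    have h4 := (Nat.prime_dvd_prime_iff_eq (Fact.out : p.Prime) Nat.prime_two).1 h3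
    exact hp h4
  have h5 : (n : ZMod p) - 2 = 0 := by
    have h6 : ((n - 2 : ℕ) : ZMod p) = 0 := by rwa [ZMod.natCast_eq_zero_iff]
    rw [Nat.cast_sub (by omega)] at h6
    exact_mod_cast h6
  have h7 := finrank_V_le (F := ZMod p) h2 hn h5
  have h8 : IsRepDim (ZMod p) (Perm (Fin n)) (TwoBlocks n) (finrank (ZMod p) (V (ZMod p) n)) := by
    refine ⟨V (ZMod p) n, inferInstance, inferInstance, inferInstance, rep,
      fun r => ⟨phi r, Submodule.subset_span ⟨r, rfl⟩⟩, ?_, ?_, rfl⟩
    · intro r s h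
      exact phi_injective h2 hn (congrArg Subtype.val h)
    · intro g r
      apply Subtype.ext
      exact phi_smul g r
  have h9 : lindim (ZMod p) (Perm (Fin n)) (TwoBlocks n) ≤ finrank (ZMod p) (V (ZMod p) n) :=
    Nat.sInf_le h8
  have h10 : n.choose 2 * 2 = n * (n - 1) := by
    rw [Nat.choose_two_right, Nat.div_mul_cancel]
    exact (Nat.even_mul_pred_self n).two_dvd
  have h11 : n * (n - 1) + n = n ^ 2 := by
    obtain ⟨m, rfl⟩ : ∃ m, n = m + 1 := ⟨n - 1, by omega⟩
    rw [Nat.add_sub_cancel]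
    ring
  omega

/-- **Main theorem.**  (1) For every even `n ≥ 6` and every odd prime `p` dividing `n - 2`, the
natural action of `S_n` on the set `TwoBlocks n` of partitions of `Fin n` into two blocks of equal size
is faithful, primitive, not equivalent to an action on `k`-subsets, and its linear dimension over
the field with `p` elements is at most `(n² - 5 n + 2) / 2`.
(2) Consequently for arbitrarily large `n` there are a field `F` and a faithful primitive action
of `S_n` on a finite set `Ω`, not equivalent to any `k`-subset action, with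
`lindim_F (S_n, Ω) < (n² - 3 n) / 2`. -/
theorem result :
    (∀ n p : ℕ, ∀ [Fact p.Prime], 6 ≤ n → Even n → p ≠ 2 → p ∣ n - 2 →
      FaithfulSMul (Perm (Fin n)) (TwoBlocks n) ∧
      MulAction.IsPreprimitive (Perm (Fin n)) (TwoBlocks n) ∧
      (∀ k, ¬ IsSubsetAction n (TwoBlocks n) k) ∧
      2 * lindim (ZMod p) (Perm (Fin n)) (TwoBlocks n) + 5 * n ≤ n ^ 2 + 2) ∧
    (∀ n₀ : ℕ, ∃ n ≥ n₀, ∃ (F : Type) (_ : Field F) (Ω : Type) (_ : Finite Ω)
      (_ : MulAction (Perm (Fin n)) Ω),
      FaithfulSMul (Perm (Fin n)) Ω ∧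
      MulAction.IsPreprimitive (Perm (Fin n)) Ω ∧
      (∀ k, ¬ IsSubsetAction n Ω k) ∧
      2 * lindim F (Perm (Fin n)) Ω + 3 * n < n ^ 2) := by
  refine ⟨fun n p _ hn he hp hd => main n p hn he hp hd, ?_⟩
  intro n₀
  have h3 : Fact (Nat.Prime 3) := ⟨Nat.prime_three⟩
  obtain ⟨h1, h2, h4, h5⟩ := main (6 * n₀ + 8) 3 (by omega) ⟨3 * n₀ + 4, by ring⟩ (by norm_num)
    ⟨2 * n₀ + 2, by omega⟩
  refine ⟨6 * n₀ + 8, by omega, ZMod 3, inferInstance, TwoBlocks (6 * n₀ + 8), inferInstance,
    inferInstance, h1, h2, h4, ?_⟩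
  omega

end Pool.Agent.Results.MP_bfdf54_al.TwoBlockPartitions
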